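import Pool.Agent.Helper92.BW.GoalsB
import Pool.Agent.Helper24.FR.VAL0
import Pool.Agent.Helper13.FR.NIN

/-! Packet BW-FRK: the frame of a family of rank at most `k`. -/

namespace Pool.Agent.Helper38.BW

open Pool.Agent.Helper81.CC Pool.Agent.Bin Pool.Agent.Helper92.VP
open Pool.Agent.Helper92.BW
open Pool.Agent.Helper92.FR hiding DepStmt

theorem dot_ip {n : ℕ} {x y : List Qn} (hx : x.length = n) (hy : y.length = n) :
    (dot x y).val = ip (lv n x) (lv n y) := by
  rw [Pool.Agent.Helper24.FR.dot_val x n y hx hy]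
  rfl

theorem lv_smul {n : ℕ} (c : Qn) {x : List Qn} (hx : x.length = n) :
    lv n (smul c x) = c.val • lv n x := by
  funext i
  have hi : (i : ℕ) < x.length := by rw [hx]; exact i.2
  simp only [lv, smul, Pi.smul_apply, smul_eq_mul]
  rw [List.getD_eq_getElem _ _ (by simpa using hi), List.getD_eq_getElem _ _ hi]
  simp

theorem lv_rowsub {n : ℕ} (c : Qn) {x y : List Qn} (hx : x.length = n) (hy : y.length = n) :
    lv n (rowsub c x y) = lv n x - c.val • lv n y := by
  funext i
  have hi : (i : ℕ) < x.length := by rw [hx]; exact i.2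
  have hi' : (i : ℕ) < y.length := by rw [hy]; exact i.2
  simp only [lv, rowsub, Pi.smul_apply, smul_eq_mul, Pi.sub_apply]
  rw [List.getD_eq_getElem _ _ (by simp [hi, hi']), List.getD_eq_getElem _ _ hi,
    List.getD_eq_getElem _ _ hi']
  simp

theorem lv_zerov (n : ℕ) : lv n (zerov n) = 0 := by
  funext i
  simp [lv, zerov]

theorem ip_smul {n : ℕ} (c : ℝ) (x y : Fin n → ℝ) : ip (c • x) y = c * ip x y := by
  simp [ip, Finset.mul_sum, mul_assoc]

theorem ip_smul' {n : ℕ} (c : ℝ) (x y : Fin n → ℝ) : ip x (c • y) = c * ip x y := by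
  simp only [ip, Finset.mul_sum, Pi.smul_apply, smul_eq_mul]
  exact Finset.sum_congr rfl fun j _ => by ring

theorem ip_sub {n : ℕ} (x x' y : Fin n → ℝ) : ip (x - x') y = ip x y - ip x' y := by
  simp [ip, Finset.sum_sub_distrib, sub_mul]

theorem ip_add {n : ℕ} (x x' y : Fin n → ℝ) : ip (x + x') y = ip x y + ip x' y := by
  simp [ip, Finset.sum_add_distrib, add_mul]

theorem ip_zero {n : ℕ} (y : Fin n → ℝ) : ip 0 y = 0 := by simp [ip]

theorem ip_sum {n : ℕ} {κ : Type*} (s : Finset κ) (c : κ → ℝ) (g : κ → Fin n → ℝ)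
    (y : Fin n → ℝ) : ip (∑ l ∈ s, c l • g l) y = ∑ l ∈ s, c l * ip (g l) y := by
  classical
  induction s using Finset.induction_on with
  | empty => simp [ip_zero]
  | insert a s ha ih => rw [Finset.sum_insert ha, Finset.sum_insert ha, ip_add, ip_smul, ih]

section

variable (n : ℕ) (U Φ : List (List Qn))

theorem amx_spec (g : List Qn) : amx n U g < n + 1 ∧
    ∀ i' < n + 1, |(dot g (U.getD i' [])).val| ≤ |(mxv n U g).val| := by
  obtain ⟨i0, hi0, hmax⟩ := Finset.exists_max_image (Finset.range (n + 1))
    (fun i => |(dot g (U.getD i [])).val|) ⟨0, by simp⟩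
  cases hf : ((List.range (n + 1)).find? fun i => (List.range (n + 1)).all fun i' =>
    Qn.le (Qn.abs (dot g (U.getD i' []))) (Qn.abs (dot g (U.getD i [])))) with
  | none =>
    exfalso
    rw [List.find?_eq_none] at hf
    have h := hf i0 (by simpa using hi0)
    apply h
    rw [List.all_eq_true]
    intro i' hi'
    rw [Qn.le_iff, Qn.val_abs, Qn.val_abs]
    exact hmax i' (by simpa using hi')
  | some i =>
    have ha : amx n U g = i := by unfold amx; rw [hf]; rfl
    have h1 := List.find?_some hf
    have h2 := List.mem_of_find?_eq_some hf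
    rw [List.all_eq_true] at h1
    refine ⟨by rw [ha]; simpa using h2, fun i' hi' => ?_⟩
    have h3 := h1 i' (by simpa using hi')
    rw [Qn.le_iff, Qn.val_abs, Qn.val_abs] at h3
    unfold mxv
    rw [ha]
    exact h3

/-- The member `l` of the frame. -/
def GG (l : ℕ) : List Qn × List Qn := nxt n l (frm n Φ U l) Φ U

theorem frm_length (j : ℕ) : (frm n Φ U j).length = j := by
  induction j with
  | zero => rfl
  | succ j ih => simp [frm, ih]

theorem frm_getD (j l : ℕ) (h : l < j) : (frm n Φ U j).getD l ([], []) = GG n U Φ l := by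
  induction j with
  | zero => omega
  | succ j ih =>
    rw [frm]
    rcases Nat.lt_succ_iff_lt_or_eq.1 h with h1 | h1
    · rw [List.getD_append _ _ _ _ (by rw [frm_length]; exact h1)]
      exact ih h1
    · subst h1
      rw [List.getD_append_right _ _ _ _ (by rw [frm_length])]
      simp [frm_length, GG]

variable (hU : U.length = n + 1) (hu : ∀ u ∈ U, u.length = n) (hΦ : ∀ f ∈ Φ, f.length = n)

include hU hu in
theorem U_length (i : ℕ) (hi : i < n + 1) : (U.getD i []).length = n := by
  rw [List.getD_eq_getElem _ _ (by rw [hU]; exact hi)]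
  exact hu _ (List.getElem_mem _)

theorem smul_length (c : Qn) (x : List Qn) : (smul c x).length = x.length := by simp [smul]

theorem rowsub_length (c : Qn) (x y : List Qn) (hx : x.length = n) (hy : y.length = n) :
    (rowsub c x y).length = n := by simp [rowsub, hx, hy]

include hΦ hU hu in
theorem len_aux (j : ℕ) : (∀ l < j, (GG n U Φ l).1.length = n ∧ (GG n U Φ l).2.length = n) ∧
    ∀ i ≤ j, ∀ f : List Qn, f.length = n → (resk i (frm n Φ U j) f).length = n := by
  induction j with
  | zero =>
    refine ⟨fun l hl => by omega, fun i hi f hf => ?_⟩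
    have : i = 0 := by omega
    subst this
    simpa [resk] using hf
  | succ j ih =>
    have h1 : ∀ l < j + 1, (GG n U Φ l).1.length = n ∧ (GG n U Φ l).2.length = n := by
      intro l hl
      rcases Nat.lt_succ_iff_lt_or_eq.1 hl with h1 | h1
      · exact ih.1 l h1
      · subst h1
        unfold GG nxt
        cases hf : Φ.find? fun f => qnz (mxv n U (resk l (frm n Φ U l) f)) with
        | none => simp [zerov]
        | some f =>
          have hfm := List.mem_of_find?_eq_some hf
          have h2 := ih.2 l le_rfl f (hΦ f hfm)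
          simp only [Option.map_some, Option.getD_some, prn, smul_length, h2, true_and]
          exact U_length n U hU hu _ (amx_spec n U _).1
    refine ⟨h1, fun i => ?_⟩
    induction i with
    | zero => intro _ f hf; simpa [resk] using hf
    | succ i ihi =>
      intro hi f hf
      rw [resk]
      refine rowsub_length n _ _ _ (ihi (by omega) f hf) ?_
      unfold gE
      rw [frm_getD n U Φ (j + 1) i (by omega)]
      exact (h1 i (by omega)).1

include hΦ hU hu in
theorem GG_length (l : ℕ) : (GG n U Φ l).1.length = n ∧ (GG n U Φ l).2.length = n :=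
  (len_aux n U Φ hU hu hΦ (l + 1)).1 l (by omega)

include hΦ hU hu in
theorem resk_length {i j : ℕ} (h : i ≤ j) {f : List Qn} (hf : f.length = n) :
    (resk i (frm n Φ U j) f).length = n := (len_aux n U Φ hU hu hΦ j).2 i h f hf

include hΦ hU hu in
theorem resk_succ {i j : ℕ} (h : i < j) {f : List Qn} (hf : f.length = n) :
    lv n (resk (i + 1) (frm n Φ U j) f) = lv n (resk i (frm n Φ U j) f) -
      ip (lv n (resk i (frm n Φ U j) f)) (lv n (GG n U Φ i).2) • lv n (GG n U Φ i).1 := by
  have h1 := resk_length n U Φ hU hu hΦ (le_of_lt h) hf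
  have h2 := GG_length n U Φ hU hu hΦ i
  rw [resk]
  have e1 : gE (frm n Φ U j) i = (GG n U Φ i).1 := by
    unfold gE; rw [frm_getD n U Φ j i h]
  have e2 : yE (frm n Φ U j) i = (GG n U Φ i).2 := by
    unfold yE; rw [frm_getD n U Φ j i h]
  rw [lv_rowsub _ h1 (by rw [e1]; exact h2.1), e1, e2, dot_ip h1 h2.2]

include hΦ hU hu in
theorem resk_comb (i j : ℕ) (h : i ≤ j) (f : List Qn) (hf : f.length = n) :
    ∃ c : ℕ → ℝ, lv n f = lv n (resk i (frm n Φ U j) f) +
      ∑ l ∈ Finset.range i, c l • lv n (GG n U Φ l).1 := by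
  induction i with
  | zero => exact ⟨0, by simp [resk]⟩
  | succ i ih =>
    obtain ⟨c, hc⟩ := ih (by omega)
    refine ⟨Function.update c i
      (ip (lv n (resk i (frm n Φ U j) f)) (lv n (GG n U Φ i).2)), ?_⟩
    rw [Finset.sum_range_succ, Function.update_self, resk_succ n U Φ hU hu hΦ (by omega) hf]
    have : ∑ l ∈ Finset.range i, Function.update c i
        (ip (lv n (resk i (frm n Φ U j) f)) (lv n (GG n U Φ i).2)) l • lv n (GG n U Φ l).1 =
        ∑ l ∈ Finset.range i, c l • lv n (GG n U Φ l).1 := by
      refine Finset.sum_congr rfl fun l hl => ?_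
      rw [Function.update_of_ne (by have := Finset.mem_range.1 hl; omega)]
    rw [this]
    conv_lhs => rw [hc]
    abel

/-- The member `l` of the frame in the two cases. -/
theorem GG_cases (l : ℕ) :
    (GG n U Φ l = (zerov n, zerov n) ∧ ∀ f ∈ Φ, (mxv n U (resk l (frm n Φ U l) f)).val = 0) ∨
    ∃ f ∈ Φ, (mxv n U (resk l (frm n Φ U l) f)).val ≠ 0 ∧
      GG n U Φ l = prn n U (resk l (frm n Φ U l) f) := by
  unfold GG nxt
  cases hf : Φ.find? fun f => qnz (mxv n U (resk l (frm n Φ U l) f)) with
  | none =>
    left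
    refine ⟨rfl, fun f hfm => ?_⟩
    rw [List.find?_eq_none] at hf
    by_contra h
    exact hf f hfm ((Pool.Agent.Helper13.FR.qnz_iff _).2 h)
  | some f =>
    right
    have h1 := List.find?_some (p := fun f => qnz (mxv n U (resk l (frm n Φ U l) f))) hf
    exact ⟨f, List.mem_of_find?_eq_some hf, (Pool.Agent.Helper13.FR.qnz_iff _).1 h1, rfl⟩

include hU hu in
theorem prn_val {g : List Qn} (hg : g.length = n) (h0 : (mxv n U g).val ≠ 0) :
    lv n (prn n U g).1 = |(mxv n U g).val|⁻¹ • lv n g ∧
    ip (lv n (prn n U g).1) (lv n (prn n U g).2) = 1 := by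
  have h1 : lv n (prn n U g).1 = |(mxv n U g).val|⁻¹ • lv n g := by
    unfold prn
    rw [lv_smul _ hg]
    simp
  have h2 := U_length n U hU hu _ (amx_spec n U g).1
  have h3 : lv n (prn n U g).2 =
      ((mxv n U g).val * |(mxv n U g).val|⁻¹) • lv n (U.getD (amx n U g) []) := by
    unfold prn
    rw [lv_smul _ h2]
    simp
  refine ⟨h1, ?_⟩
  rw [h1, h3, ip_smul, ip_smul', ← dot_ip hg h2]
  have h4 : (dot g (U.getD (amx n U g) [])).val = (mxv n U g).val := rfl
  rw [h4]
  set x := (mxv n U g).val with hx
  have h5 : |x| ≠ 0 := abs_ne_zero.2 h0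
  have h6 : x * x = |x| * |x| := (abs_mul_abs_self x).symm
  field_simp
  nlinarith [h6]

include hΦ hU hu in
theorem tri (l : ℕ) :
    (ip (lv n (GG n U Φ l).1) (lv n (GG n U Φ l).2) = 1 ∨ lv n (GG n U Φ l).2 = 0) ∧
    (∀ l' < l, ip (lv n (GG n U Φ l).1) (lv n (GG n U Φ l').2) = 0) := by
  induction l using Nat.strong_induction_on with
  | _ l ih =>
    -- residuals vanish at the points
    have hres : ∀ i ≤ l, ∀ f : List Qn, f.length = n → ∀ l' < i,
        ip (lv n (resk i (frm n Φ U l) f)) (lv n (GG n U Φ l').2) = 0 := by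
      intro i
      induction i with
      | zero => intro _ f _ l' hl'; omega
      | succ i ihi =>
        intro hi f hf l' hl'
        rw [resk_succ n U Φ hU hu hΦ (by omega) hf, ip_sub, ip_smul]
        rcases Nat.lt_succ_iff_lt_or_eq.1 hl' with h1 | h1
        · rw [ihi (by omega) f hf l' h1, (ih i (by omega)).2 l' h1]
          simp
        · subst h1
          rcases (ih l' (by omega)).1 with h2 | h2
          · rw [h2]; ring
          · rw [h2]
            simp [ip]
    rcases GG_cases n U Φ l with ⟨h1, _⟩ | ⟨f, hf, h1, h2⟩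
    · rw [h1]
      refine ⟨Or.inr (lv_zerov n), fun l' _ => ?_⟩
      rw [lv_zerov, ip_zero]
    · have hg := resk_length n U Φ hU hu hΦ (le_refl l) (hΦ f hf)
      have h3 := prn_val n U hU hu hg h1
      rw [h2]
      refine ⟨Or.inl h3.2, fun l' hl' => ?_⟩
      rw [h3.1, ip_smul, hres l le_rfl f (hΦ f hf) l' hl', mul_zero]

end

theorem frk : FrkStmt := by
  intro n k v U Φ hv hU hu hspan hΦ hrank w hw f hf
  -- the members of the frame
  have hgv : ∀ j < k, gv n (fr n k U Φ v) j = lv n (GG n U Φ j).1 := by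
    intro j hj
    unfold gv gE fr
    rw [List.getD_append _ _ _ _ (by rw [frm_length]; exact hj), frm_getD n U Φ k j hj]
  have hw' : ∀ j < k, ip (lv n (GG n U Φ j).1) w = 0 := by
    intro j hj
    rw [← hgv j hj]
    exact hw j hj
  by_cases hall : ∀ j < k, ∃ f ∈ Φ, (mxv n U (resk j (frm n Φ U j) f)).val ≠ 0 ∧
      GG n U Φ j = prn n U (resk j (frm n Φ U j) f)
  · -- the members are linearly independent
    have hdiag : ∀ j < k, ip (lv n (GG n U Φ j).1) (lv n (GG n U Φ j).2) = 1 := by
      intro j hj
      obtain ⟨f', hf', h1, h2⟩ := hall j hj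
      rw [h2]
      exact (prn_val n U hU hu (resk_length n U Φ hU hu hΦ le_rfl (hΦ f' hf')) h1).2
    have hli : LinearIndependent ℝ (fun j : Fin k => lv n (GG n U Φ j).1) := by
      rw [Fintype.linearIndependent_iff]
      intro c hc
      have key : ∀ m : ℕ, ∀ hm : m < k, c ⟨m, hm⟩ = 0 := by
        intro m
        induction m using Nat.strong_induction_on with
        | _ m ih =>
          intro hm
          have h1 : ip (∑ j : Fin k, c j • lv n (GG n U Φ j).1) (lv n (GG n U Φ m).2) = 0 := by
            rw [hc, ip_zero]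
          rw [ip_sum, Finset.sum_eq_single (⟨m, hm⟩ : Fin k)] at h1
          · rw [hdiag m hm, mul_one] at h1
            exact h1
          · intro j _ hj
            rcases lt_trichotomy (j : ℕ) m with h2 | h2 | h2
            · rw [show c j = 0 from ih j h2 j.2, zero_mul]
            · exact absurd (Fin.ext h2) hj
            · rw [(tri n U Φ hU hu hΦ j).2 m h2, mul_zero]
          · intro h; exact absurd (Finset.mem_univ _) h
      exact fun i => key i i.2
    -- they are in the span of the family
    have hmem : ∀ j < k, lv n (GG n U Φ j).1 ∈ Submodule.span ℝ {w | ∃ f ∈ Φ, w = lv n f} := by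
      intro j
      induction j using Nat.strong_induction_on with
      | _ j ih =>
        intro hj
        obtain ⟨f', hf', h1, h2⟩ := hall j hj
        have hl := resk_length n U Φ hU hu hΦ (le_refl j) (hΦ f' hf')
        obtain ⟨c, hc⟩ := resk_comb n U Φ hU hu hΦ j j le_rfl f' (hΦ f' hf')
        rw [h2, (prn_val n U hU hu hl h1).1]
        refine Submodule.smul_mem _ _ ?_
        have : lv n (resk j (frm n Φ U j) f') = lv n f' -
            ∑ l ∈ Finset.range j, c l • lv n (GG n U Φ l).1 := by
          rw [hc]; abel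
        rw [this]
        refine Submodule.sub_mem _ (Submodule.subset_span ⟨f', hf', rfl⟩)
          (Submodule.sum_mem _ fun l hl => Submodule.smul_mem _ _ ?_)
        have hl' := Finset.mem_range.1 hl
        exact ih l hl' (by omega)
    have hle : Submodule.span ℝ (Set.range (fun j : Fin k => lv n (GG n U Φ j).1)) ≤
        Submodule.span ℝ {w | ∃ f ∈ Φ, w = lv n f} := by
      rw [Submodule.span_le]
      rintro _ ⟨j, rfl⟩
      exact hmem j j.2
    have heq := Submodule.eq_of_le_of_finrank_le hle (by
      rw [finrank_span_eq_card hli, Fintype.card_fin]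
      exact hrank)
    have hfm : lv n f ∈ Submodule.span ℝ (Set.range (fun j : Fin k => lv n (GG n U Φ j).1)) := by
      rw [heq]
      exact Submodule.subset_span ⟨f, hf, rfl⟩
    refine Submodule.span_induction (p := fun x _ => ip x w = 0) ?_ ?_ ?_ ?_ hfm
    · rintro _ ⟨j, rfl⟩
      exact hw' j j.2
    · exact ip_zero w
    · intro x y _ _ hx hy
      rw [ip_add, hx, hy, add_zero]
    · intro a x _ hx
      rw [ip_smul, hx, mul_zero]
  · push Not at hall
    obtain ⟨j, hj, h⟩ := hall
    rcases GG_cases n U Φ j with ⟨_, h1⟩ | ⟨f', hf', h1, h2⟩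
    · have hl := resk_length n U Φ hU hu hΦ (le_refl j) (hΦ f hf)
      have h0 : lv n (resk j (frm n Φ U j) f) = 0 := by
        refine hspan _ fun i => ?_
        have h2 := (amx_spec n U (resk j (frm n Φ U j) f)).2 i i.2
        rw [h1 f hf, abs_zero] at h2
        rw [← dot_ip hl (U_length n U hU hu i i.2)]
        exact abs_nonpos_iff.1 h2
      obtain ⟨c, hc⟩ := resk_comb n U Φ hU hu hΦ j j le_rfl f (hΦ f hf)
      rw [hc, h0, zero_add, ip_sum]
      refine Finset.sum_eq_zero fun l hl => ?_
      rw [hw' l (by have := Finset.mem_range.1 hl; omega), mul_zero]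
    · exact absurd h2 (h f' hf' h1)

end Pool.Agent.Helper38.BW
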